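import Pool.Agent.U348.LB.Fin

/-!
# MP_2f9829_co: list edge colourings of graphs close to bipartite graphs

The list edge-colouring conjecture is proved for graphs `G` for which the core of the line graph
becomes bipartite after deleting few edges, for example for all graphs whose odd cycles have a
common edge, and for all overfull graphs which become bipartite after deleting a matching.

For graphs which are not `Δ`-edge-colourable the proof is that of Borodin, Kostochka and Woodall: the
deleted edges are coloured first. For graphs which are `Δ`-edge-colourable we use Galvin's method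
with the order given by an edge colouring in which the deleted edges on one side of the bipartition
have the largest colour and those on the other side the smallest colour: they have no successors
(so that they can be coloured first and arbitrarily), and they save one successor for each of the
other edges at their ends.
-/

set_option autoImplicit false

namespace Pool.Agent.Results.MP_2f9829_co.BipartizingMatchings

/-- `c` is a proper colouring of the edges of `G`. -/
def Proper {V : Type} (G : SimpleGraph V) (c : Sym2 V → ℕ) : Prop :=
  ∀ u v w, G.Adj u v → G.Adj u w → v ≠ w → c s(u, v) ≠ c s(u, w)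

/-- The edges of `G` can be properly coloured from all lists of at least `k` colours. -/
def EdgeChoosable {V : Type} (G : SimpleGraph V) (k : ℕ) : Prop :=
  ∀ L : G.edgeSet → Finset ℕ, (∀ e, k ≤ (L e).card) →
    ∃ f : G.edgeSet → ℕ, (∀ e, f e ∈ L e) ∧ ∀ e e', G.lineGraph.Adj e e' → f e ≠ f e'

/-- The list edge-colouring conjecture for the graph `G`. -/
def ListEdge {V : Type} (G : SimpleGraph V) : Prop :=
  ∀ k : ℕ, G.lineGraph.Colorable k ↔ EdgeChoosable G k

/-- The number of neighbours of `v`. -/
noncomputable def deg {V : Type} (G : SimpleGraph V) (v : V) : ℕ := (G.neighborSet v).ncard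

/-- The largest subgraph `K` of `G` such that `deg_K u + deg_K v ≥ k + 2` for all edges `u v` of `K`
(the union of all these subgraphs); its edges form the `k`-core of the line graph of `G`. -/
def lineCore {V : Type} (G : SimpleGraph V) (k : ℕ) : SimpleGraph V :=
  sSup {K | K ≤ G ∧ ∀ u v, K.Adj u v → k + 2 ≤ deg K u + deg K v}

/-- All degrees are at most one. -/
def IsMatching {V : Type} (M : SimpleGraph V) : Prop := ∀ u v w, M.Adj u v → M.Adj u w → v = w

/-- The component of `v` in `K` contains at most one edge of `M`. -/
def AtMostOne {V : Type} (K M : SimpleGraph V) (v : V) : Prop :=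
  ∀ a b a' b', M.Adj a b → M.Adj a' b' → K.Reachable v a → K.Reachable v a' → s(a, b) = s(a', b')

/-- (1) If `G` is bipartite except for the edges of `M`, every proper colouring of the edges of `M`
extends to a proper edge colouring of `G` with colours from given lists for the other edges, if the
list of an edge `u v` has at least `deg_G u + deg_M v` colours (in both orders).

(2) If all degrees of `G` are at most `D` and `lineCore G (D + d)` becomes bipartite after deleting
a set `M` of edges with all degrees at most `d`, then `G` is `(D + d)`-edge-choosable, and the list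
edge-colouring conjecture holds for `G` if `G` is not `(D + d - 1)`-edge-colourable.

(3) Suppose that the vertices are divided into `X` and its complement, that `N₁` and `N₂` are
disjoint matchings such that the edges of `lineCore G D` inside `X` are in `N₁` and those inside the
complement are in `N₂`, and that deleting `N₁` and `N₂` leaves degrees at most `D - 2` in
`lineCore G D`. Then `G` is `D`-edge-choosable, and the list edge-colouring conjecture holds for `G`
if `G` is not `(D - 1)`-edge-colourable, for example if it has a vertex of degree `D`.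

(4) Let `G` have a vertex of degree at least `D`, let `lineCore G D` become bipartite after deleting
a set `M` of edges, and suppose that every component of `lineCore G D` contains at most one edge of
`M` or satisfies the inequalities `deg_K u + deg_M v ≤ D` for its edges `u v` outside `M`, where
`K = lineCore G D`, and `deg_M u + deg_M v ≤ D + 1` for its edges in `M`. Then the list
edge-colouring conjecture holds for `G`.

(5) The list edge-colouring conjecture holds for all graphs which become bipartite after deleting one
edge, that is, for the graphs all of whose odd cycles have a common edge.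

(6) Let `G` have an odd number `n` of vertices, all degrees at most `D` and more than `D (n - 1) / 2`
edges. If `lineCore G (D + 1)` (for example, `G` itself) becomes bipartite after deleting a matching,
the list edge-colouring conjecture holds for `G`. -/
theorem result :
    (∀ (V : Type) [Fintype V] (G M : SimpleGraph V) (c₀ : Sym2 V → ℕ) (L : Sym2 V → Finset ℕ),
      M ≤ G → (G \ M).Colorable 2 → Proper M c₀ →
      (∀ u v, (G \ M).Adj u v → deg G u + deg M v ≤ (L s(u, v)).card) →
      ∃ c : Sym2 V → ℕ, Proper G c ∧ (∀ u v, M.Adj u v → c s(u, v) = c₀ s(u, v)) ∧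
        ∀ u v, (G \ M).Adj u v → c s(u, v) ∈ L s(u, v)) ∧
    (∀ (V : Type) [Fintype V] (G M : SimpleGraph V) (d D : ℕ),
      M ≤ lineCore G (D + d) → (lineCore G (D + d) \ M).Colorable 2 →
      (∀ v, deg M v ≤ d) → (∀ v, deg G v ≤ D) →
      EdgeChoosable G (D + d) ∧ (¬ G.lineGraph.Colorable (D + d - 1) → ListEdge G)) ∧
    (∀ (V : Type) [Fintype V] (G N₁ N₂ : SimpleGraph V) (X : Set V) (D : ℕ),
      IsMatching N₁ → IsMatching N₂ → (∀ u v, N₁.Adj u v → ¬ N₂.Adj u v) →
      (∀ u v, (lineCore G D).Adj u v → u ∈ X → v ∈ X → N₁.Adj u v) →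
      (∀ u v, (lineCore G D).Adj u v → u ∉ X → v ∉ X → N₂.Adj u v) →
      (∀ v, deg (lineCore G D \ (N₁ ⊔ N₂)) v + 2 ≤ D) →
      EdgeChoosable G D ∧ (¬ G.lineGraph.Colorable (D - 1) → ListEdge G) ∧
        ((∃ v, deg G v = D) → ListEdge G)) ∧
    (∀ (V : Type) [Fintype V] (G M : SimpleGraph V) (D : ℕ), (∃ v, D ≤ deg G v) →
      M ≤ lineCore G D → (lineCore G D \ M).Colorable 2 →
      (∀ u v, (lineCore G D).Adj u v → AtMostOne (lineCore G D) M u ∨
        ((M.Adj u v → deg M u + deg M v ≤ D + 1) ∧
          (¬ M.Adj u v → deg (lineCore G D) u + deg M v ≤ D))) →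
      ListEdge G) ∧
    (∀ (V : Type) [Fintype V] (G : SimpleGraph V) (e : Sym2 V),
      (G.deleteEdges {e}).Colorable 2 → ListEdge G) ∧
    (∀ (V : Type) [Fintype V] (G M : SimpleGraph V) (D : ℕ), Odd (Fintype.card V) →
      (∀ v, deg G v ≤ D) → D * (Fintype.card V - 1) < ∑ v, deg G v → IsMatching M →
      ((M ≤ lineCore G (D + 1) ∧ (lineCore G (D + 1) \ M).Colorable 2) ∨
        (M ≤ G ∧ (G \ M).Colorable 2)) →
      ListEdge G) := by
  have hM1 : ∀ (V : Type) [Fintype V] (M : SimpleGraph V), IsMatching M → ∀ v, deg M v ≤ 1 :=
    fun V _ M h v => Pool.Agent.U348.LB.dg_le_one M h v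
  refine ⟨?_, ?_, ?_, ?_, ?_, ?_⟩
  · intro V _ G M c₀ L hMG h2 hc₀ hL
    obtain ⟨X, hX⟩ := Pool.Agent.U348.LB.sides G M h2
    obtain ⟨c, h3, h4, h5⟩ := Pool.Agent.U348.LB.preL G M hMG (fun v => v ∈ X)
      (fun u v h3 h4 => by have := hX u v h3 h4; tauto) L c₀ hc₀
      (fun u v h3 h4 => hL u v ⟨h3, h4⟩)
    exact ⟨c, h3, h4, fun u v h => h5 u v h.1 h.2⟩
  · intro V _ G M d D hM h2 hd hD
    have h := Pool.Agent.U348.LB.choosableHeavy G M d D hM h2 hd hD
    exact ⟨h, fun h3 k => Pool.Agent.U348.LB.lec_of G (D + d) h h3 k⟩
  · intro V _ G N₁ N₂ X D h1 h2 h3 h4 h5 h6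
    have h := Pool.Agent.U348.LB.ofHeavy G D D le_rfl
      (Pool.Agent.U348.LB.twoMatch (lineCore G D) N₁ N₂ X D h1 h2 h3 h4 h5 h6)
    refine ⟨h, fun h7 k => Pool.Agent.U348.LB.lec_of G D h h7 k, ?_⟩
    rintro ⟨v, hv⟩ k
    exact Pool.Agent.TH559.LE.lecc G D h v hv k
  · intro V _ G M D hv hM h2 hcond k
    exact Pool.Agent.U348.LB.lecMix G M D hv hM h2 hcond k
  · intro V _ G e h k
    exact Pool.Agent.U348.LB.oneEdge G e h k
  · intro V _ G M D hodd hD hsum hM hor k
    have hnc : ¬ G.lineGraph.Colorable D := fun h =>
      absurd (Pool.Agent.U348.LB.overfull G D hodd h) (not_le_of_gt hsum)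
    refine Pool.Agent.U348.LB.lec_of G (D + 1) ?_ hnc k
    rcases hor with ⟨h1, h2⟩ | ⟨h1, h2⟩
    · exact Pool.Agent.U348.LB.choosableHeavy G M 1 D h1 h2 (hM1 V M hM) hD
    · obtain ⟨X, hX⟩ := Pool.Agent.U348.LB.sides G M h2
      exact Pool.Agent.U348.LB.choosableD G M 1 D h1 (fun v => v ∈ X)
        (fun u v h3 h4 => by have := hX u v h3 h4; tauto) (hM1 V M hM) hD

end Pool.Agent.Results.MP_2f9829_co.BipartizingMatchings
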