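import Pool.Agent.U122.CL.Intv

/-!
# List edge colouring from coarse lists

The list edge colouring conjecture up to an additive error for lists with few different values, for
lists that are unions of few intervals, and for lists that are almost unions of blocks, also with a
precoloured subgraph of small maximum degree.
-/

set_option autoImplicit false

namespace Pool.Agent.Results.MP_2f9829_co.CoarseLists

open Finset Pool.Agent.H162R2.Sparse Pool.Agent.U122.CL

/-- different edges of `G` with a common end get different colours -/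
def Proper {V : Type} (G : SimpleGraph V) (c : Sym2 V → ℕ) : Prop :=
  ∀ u v w, G.Adj u v → G.Adj u w → v ≠ w → c s(u, v) ≠ c s(u, w)

/-- the number of neighbours of `v` in `G` -/
noncomputable def deg {V : Type} (G : SimpleGraph V) (v : V) : ℕ := (G.neighborSet v).ncard

/-- the number of colours lost in every block: `2 + ⌈1500 q (1 + log (Δ + 1))⌉` -/
noncomputable def cost (Δ q : ℕ) : ℕ := 2 + ⌈1500 * (q : ℝ) * (1 + Real.log (Δ + 1))⌉₊

/-- `S` is the union of at most `s` intervals of natural numbers -/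
def Intervals (s : ℕ) (S : Finset ℕ) : Prop :=
  ∃ F : Finset (ℕ × ℕ), F.card ≤ s ∧ S = F.biUnion (fun p => Finset.Ico p.1 p.2)

/-- there is a proper edge colouring of `G` with colours from the lists -/
def Colourable {V : Type} (G : SimpleGraph V) (L : Sym2 V → Finset ℕ) : Prop :=
  ∃ c : Sym2 V → ℕ, Proper G c ∧ ∀ e ∈ G.edgeSet, c e ∈ L e

/-- the colours `c₀` of the edges of `H` extend to a proper edge colouring of `G` in which all
other edges get colours from their lists -/
def Extends {V : Type} (G H : SimpleGraph V) (c₀ : Sym2 V → ℕ) (L : Sym2 V → Finset ℕ) : Prop :=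
  ∃ c : Sym2 V → ℕ, Proper G c ∧ (∀ e ∈ H.edgeSet, c e = c₀ e) ∧
    ∀ e ∈ G.edgeSet, e ∉ H.edgeSet → c e ∈ L e

theorem deg_eq {V : Type} [Fintype V] [DecidableEq V] (G : SimpleGraph V) (v : V) :
    deg G v = dg G v := ncard_dg G v

theorem ext_of {V : Type} (G H : SimpleGraph V) (hHG : H ≤ G) (c₀ : Sym2 V → ℕ)
    (L : Sym2 V → Finset ℕ)
    (h : ∃ c : V → V → ℕ, (∀ u v, G.Adj u v → c u v = c v u) ∧
      (∀ u v, H.Adj u v → c u v = c₀ s(u, v)) ∧
      (∀ u v, G.Adj u v → ¬ H.Adj u v → c u v ∈ L s(u, v)) ∧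
      ∀ u v w, G.Adj u v → G.Adj u w → v ≠ w → c u v ≠ c u w) : Extends G H c₀ L := by
  classical
  obtain ⟨c, h1, h2, h3, h4⟩ := h
  refine ⟨Sym2.lift ⟨fun u v => if G.Adj u v then c u v else 0, ?_⟩, ?_, ?_, ?_⟩
  · intro u v
    by_cases huv : G.Adj u v
    · simp only [if_pos huv, if_pos huv.symm]
      exact h1 u v huv
    · have hvu : ¬ G.Adj v u := fun h' => huv h'.symm
      simp only [if_neg huv, if_neg hvu]
  · intro u v w huv huw hvw
    simp only [Sym2.lift_mk, if_pos huv, if_pos huw]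
    exact h4 u v w huv huw hvw
  · intro e
    induction e using Sym2.ind with
    | _ u v =>
      intro he
      rw [SimpleGraph.mem_edgeSet] at he
      simp only [Sym2.lift_mk, if_pos (hHG he)]
      exact h2 u v he
  · intro e
    induction e using Sym2.ind with
    | _ u v =>
      intro he hn
      rw [SimpleGraph.mem_edgeSet] at he hn
      simp only [Sym2.lift_mk, if_pos he]
      exact h3 u v he hn

theorem col_of {V : Type} (G : SimpleGraph V) (L : Sym2 V → Finset ℕ)
    (h : ∃ c : V → V → ℕ, (∀ u v, G.Adj u v → c u v = c v u) ∧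
      (∀ u v, G.Adj u v → c u v ∈ L s(u, v)) ∧
      ∀ u v w, G.Adj u v → G.Adj u w → v ≠ w → c u v ≠ c u w) : Colourable G L := by
  obtain ⟨c, h1, h2, h3⟩ := h
  obtain ⟨d, k1, _, k3⟩ := ext_of G ⊥ bot_le (fun _ => 0) L
    ⟨c, h1, fun u v h => h.elim, fun u v h _ => h2 u v h, h3⟩
  exact ⟨d, k1, fun e he => k3 e he (by simp)⟩

/-- **List edge colouring from coarse lists.**
(1) If the lists take at most `t` values on the edges and every edge `u v` has at least
`max (deg u) (deg v) + 1 + 2 ^ t` colours in its list, then the graph has a proper edge colouring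
from the lists.
(2) If all degrees are at most `Δ`, every list is a union of at most `s` intervals and every edge
`u v` has at least `max (deg u) (deg v) + 1 + 4 s + 2 √(2 s (Δ + 1))` colours in its list, then
the graph has a proper edge colouring from the lists.
(3) Let `H` be a properly coloured subgraph of maximum degree at most `r`, let `ψ` be a map of the
colours and let `R e` be in a family of `t` sets for the edges outside `H`. If `ψ (L e)` contains
all but at most `q` elements of `R e` and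
`max (deg u) (deg v) + 1 + 2 ^ (t - 1) * cost Δ (q + 2 r) ≤ |R (u v)|` for all edges outside `H`,
then the colouring of `H` extends to a proper colouring of `G` with colours from the lists.
(4) The same if `R e` is the union of the sets `P i`, `i ∈ I e`, from a system of pairwise disjoint
sets and `∑ ⌊(|P i| + 1 - cost Δ (q + 2 r)) / 2⌋` over `I (u v)` is at least half of
`max (deg u) (deg v)`, rounded up. -/
theorem result :
    (∀ (V : Type) [Fintype V] (G : SimpleGraph V) (𝓡 : Finset (Finset ℕ)) (L : Sym2 V → Finset ℕ),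
      (∀ u v, G.Adj u v → L s(u, v) ∈ 𝓡 ∧ deg G u + 1 + 2 ^ 𝓡.card ≤ (L s(u, v)).card) →
      Colourable G L) ∧
    (∀ (V : Type) [Fintype V] (G : SimpleGraph V) (Δ s : ℕ) (L : Sym2 V → Finset ℕ),
      (∀ v, deg G v ≤ Δ) →
      (∀ u v, G.Adj u v → Intervals s (L s(u, v)) ∧
        (deg G u : ℝ) + 1 + 4 * s + 2 * Real.sqrt (2 * s * (Δ + 1)) ≤ (L s(u, v)).card) →
      Colourable G L) ∧
    (∀ (V : Type) [Fintype V] (G H : SimpleGraph V) (Δ q r : ℕ) (c₀ : Sym2 V → ℕ) (ψ : ℕ → ℕ)
      (𝓡 : Finset (Finset ℕ)) (R L : Sym2 V → Finset ℕ),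
      H ≤ G → (∀ v, deg G v ≤ Δ) → (∀ v, deg H v ≤ r) → Proper H c₀ →
      (∀ u v, G.Adj u v → ¬ H.Adj u v → R s(u, v) ∈ 𝓡 ∧
        (R s(u, v) \ (L s(u, v)).image ψ).card ≤ q ∧
        deg G u + 1 + 2 ^ (𝓡.card - 1) * cost Δ (q + 2 * r) ≤ (R s(u, v)).card) →
      Extends G H c₀ L) ∧
    (∀ (V : Type) [Fintype V] (G H : SimpleGraph V) (Δ q r : ℕ) (c₀ : Sym2 V → ℕ) (ψ : ℕ → ℕ)
      (ι : Type) [Fintype ι] (P : ι → Finset ℕ) (I : Sym2 V → Finset ι) (L : Sym2 V → Finset ℕ),
      H ≤ G → (∀ v, deg G v ≤ Δ) → (∀ v, deg H v ≤ r) → Proper H c₀ →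
      (∀ i j, i ≠ j → Disjoint (P i) (P j)) →
      (∀ u v, G.Adj u v → ¬ H.Adj u v →
        ((I s(u, v)).biUnion P \ (L s(u, v)).image ψ).card ≤ q ∧
        (deg G u + 1) / 2 ≤ ∑ i ∈ I s(u, v), ((P i).card + 1 - cost Δ (q + 2 * r)) / 2) →
      Extends G H c₀ L) := by
  classical
  refine ⟨?_, ?_, ?_, ?_⟩
  · intro V _ G 𝓡 L h
    obtain ⟨c, h1, _, h3, h4⟩ := main_few G ⊥ (Fintype.card V) 0 0 (fun v => by
        unfold dg
        exact card_le_univ _) (fun v => by
        unfold dg
        rw [Nat.le_zero, card_eq_zero, eq_empty_iff_forall_notMem]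
        intro u hu
        exact (mem_nb _ _ _).1 hu) (fun _ _ => 0) (fun _ _ => rfl)
        (fun u v w h => h.elim) id 𝓡 L (fun u v => L s(u, v))
        (fun u v => by rw [Sym2.eq_swap]) (fun u v huv _ => (h u v huv).1)
        (fun u v huv _ => by simp) (by
      intro u v huv _
      have h2 := (h u v huv).2
      have h4 : 0 < 𝓡.card := card_pos.2 ⟨_, (h u v huv).1⟩
      rw [deg_eq] at h2
      have h5 : 2 ^ (𝓡.card - 1) * Pool.Agent.U122.CL.cost (Fintype.card V) (0 + 2 * 0) =
          2 ^ 𝓡.card := by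
        rw [Nat.zero_add, Nat.mul_zero, cost_zero]
        obtain ⟨t, ht⟩ : ∃ t, 𝓡.card = t + 1 := ⟨𝓡.card - 1, by omega⟩
        rw [ht, Nat.add_sub_cancel]
        ring
      rw [h5]
      exact h2)
    exact col_of G L ⟨c, h1, fun u v huv => h3 u v huv (fun h => h.elim), h4⟩
  · intro V _ G Δ s L hΔ h
    obtain ⟨c, h1, h2, h3⟩ := intervals_LC G Δ s (fun v => by rw [← deg_eq]; exact hΔ v) L
      (fun u v huv => ⟨(h u v huv).1, by rw [← deg_eq]; exact (h u v huv).2⟩)
    exact col_of G L ⟨c, h1, h2, h3⟩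
  · intro V _ G H Δ q r c₀ ψ 𝓡 R L hHG hΔ hr hc h
    apply ext_of G H hHG c₀ L
    refine main_few G H Δ q r (fun v => by rw [← deg_eq]; exact hΔ v)
      (fun v => by rw [← deg_eq]; exact hr v) (fun u v => c₀ s(u, v))
      (fun u v => by rw [Sym2.eq_swap]) hc ψ 𝓡 R (fun u v => L s(u, v))
      (fun u v => by rw [Sym2.eq_swap]) (fun u v h1 h2 => (h u v h1 h2).1)
      (fun u v h1 h2 => (h u v h1 h2).2.1) (fun u v h1 h2 => ?_)
    rw [← deg_eq]
    exact (h u v h1 h2).2.2
  · intro V _ G H Δ q r c₀ ψ ι _ P I L hHG hΔ hr hc hP h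
    apply ext_of G H hHG c₀ L
    refine main_pre G H Δ q r (fun v => by rw [← deg_eq]; exact hΔ v)
      (fun v => by rw [← deg_eq]; exact hr v) (fun u v => c₀ s(u, v))
      (fun u v => by rw [Sym2.eq_swap]) hc ψ P hP I (fun u v => L s(u, v))
      (fun u v => by rw [Sym2.eq_swap]) (fun u v h1 h2 => (h u v h1 h2).1) (fun u v h1 h2 => ?_)
    rw [← deg_eq]
    exact (h u v h1 h2).2

end Pool.Agent.Results.MP_2f9829_co.CoarseLists
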