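import Pool.Agent.U531.SR.HetPL

set_option autoImplicit false

/-!
# The list edge-colouring conjecture for heterogeneous random graphs and power laws

Random graphs with independent edges of arbitrary probabilities. Let `M` be the largest expected
degree, `M ≥ C log n`, and let `W` be a set of vertices, for instance the vertices of large expected
degree. If the vertices outside `W` have at most `β M` expected neighbours in `W` and at most
`(1 - 2 β - η) M` outside, and the vertices in `W` have at most `(1 - β - η) M` expected neighbours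
in `W`, then the list edge-colouring conjecture holds with probability at least `1 - 1 / n`. This
applies to the random graphs with given expected degrees (Chung and Lu), if the vertices of weight
more than `x` times the largest weight carry a part `φ` of the total weight with
`x (1 + φ) < 1` and `φ (1 + x) < 1`, and in particular to all power laws.

The starting result `RandomGraphs` assumes that the largest expected degree is of order `n`; the
result `SparseRandomGraphs` is about equal probabilities `p ≤ 9.24 log n / n`. The deterministic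
theorems used are library theorems: `Pool.Agent.N410.LD.of_parts` (starting result
`LocalDegreeCondition`), which reduces the question to the two parts inside and outside `W`, and
`Pool.Agent.N410.LD.ch_few` (list edge colourings with `Δ + K (√(Δ log n) + log n)` colours).
-/

namespace Pool.Agent.Results.MP_2f9829_co.HeterogeneousRandomGraphs

/-- Edge probabilities: `q e` is the probability that the pair `e` is an edge; all pairs are
independent. `prob q P` is the probability that the random graph has the property `P`. -/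
noncomputable def prob {n : ℕ} (q : Sym2 (Fin n) → ℝ) (P : SimpleGraph (Fin n) → Prop) : ℝ := by
  classical exact ∑ G : SimpleGraph (Fin n), if P G then
    (∏ e : {e : Sym2 (Fin n) // ¬ e.IsDiag}, if e.1 ∈ G.edgeSet then q e.1 else 1 - q e.1) else 0

/-- The expected number of neighbours of the vertex `v` in the set `A`. -/
noncomputable def expectedDegree {n : ℕ} (q : Sym2 (Fin n) → ℝ) (A : Finset (Fin n))
    (v : Fin n) : ℝ :=
  ∑ w ∈ A.erase v, q s(v, w)

/-- The edges of `G` can be properly coloured from all lists of at least `k` colours. -/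
def EdgeChoosable {V : Type} (G : SimpleGraph V) (k : ℕ) : Prop :=
  ∀ L : G.edgeSet → Finset ℕ, (∀ e, k ≤ (L e).card) →
    ∃ f : G.edgeSet → ℕ, (∀ e, f e ∈ L e) ∧ ∀ e e', G.lineGraph.Adj e e' → f e ≠ f e'

/-- The list edge-colouring conjecture holds for `G`, and both numbers in it are equal to the
maximum degree `D`. -/
def Good {V : Type} (G : SimpleGraph V) : Prop :=
  (∀ k : ℕ, G.lineGraph.Colorable k ↔ EdgeChoosable G k) ∧
    ∃ D : ℕ, (∀ v, (G.neighborSet v).ncard ≤ D) ∧ (∃ v, (G.neighborSet v).ncard = D) ∧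
      EdgeChoosable G D

/-- The edge probabilities `w i w j / ∑ w`. -/
noncomputable def chungLu {n : ℕ} (w : Fin n → ℝ) : Sym2 (Fin n) → ℝ :=
  Sym2.lift ⟨fun i j => w i * w j / ∑ k, w k, fun i j => by
    show w i * w j / ∑ k, w k = w j * w i / ∑ k, w k
    rw [mul_comm (w i)]⟩

theorem good_of {n : ℕ} (hn : 2 ≤ n) (q : Sym2 (Fin n) → ℝ) (hq : ∀ e, 0 ≤ q e ∧ q e ≤ 1)
    (x : ℝ) (h : x ≤ Pool.Agent.U531.SR.probQ q (fun G : SimpleGraph (Fin n) =>
      ∀ D, Pool.Agent.U531.SR.IsMax G D → Pool.Agent.TH559.LE.Choosable G D)) :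
    x ≤ prob q (fun G => Good G) := by
  change x ≤ Pool.Agent.U531.SR.probQ q _
  rw [Pool.Agent.U531.SR.probQ_eq] at h ⊢
  refine h.trans (Pool.Agent.U531.SR.PQ_mono (fun e => hq e.1) (fun χ hχ => ?_))
  obtain ⟨D, hD⟩ := Pool.Agent.U531.SR.exists_isMax (by omega : 0 < n)
    (Pool.Agent.U531.SR.gr χ)
  obtain ⟨v, hv⟩ := hD.2
  have hc := hχ D hD
  exact ⟨fun k => Pool.Agent.TH559.LE.lecc _ D hc v hv k, D, hD.1, ⟨v, hv⟩, hc⟩

theorem chungLu_mem {n : ℕ} (w : Fin n → ℝ) (hw : ∀ i, 0 ≤ w i)
    (hww : ∀ i j, w i * w j ≤ ∑ k, w k) (e : Sym2 (Fin n)) : 0 ≤ chungLu w e ∧ chungLu w e ≤ 1 := by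
  induction e using Sym2.ind with
  | _ i j =>
    have hS : 0 ≤ ∑ k, w k := Finset.sum_nonneg fun k _ => hw k
    refine ⟨div_nonneg (mul_nonneg (hw i) (hw j)) hS, ?_⟩
    show w i * w j / ∑ k, w k ≤ 1
    exact div_le_one_of_le₀ (hww i j) hS

/-- There is a constant `C > 0` with the following properties. `Good` means: the list
edge-colouring conjecture holds for the graph, and it is edge-colourable from all lists of `Δ`
colours.

(1) Let `0 < η ≤ 1 / 2`, `n ≥ 2`, `0 ≤ β ≤ (1 - η) / 2`, let `q` be edge probabilities on `n`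
vertices, let `M ≥ (C / η²) log n`, let some vertex have expected degree at least `M`, and let `W` be
a set of vertices such that every vertex outside `W` has at most `(1 - 2 β - η) M` expected
neighbours outside `W` and at most `β M` expected neighbours in `W`, and every vertex in `W` has at
most `(1 - β - η) M` expected neighbours in `W`. Then the random graph with the edge probabilities
`q` is `Good` with probability at least `1 - 1 / n`.

(2) Let `η > 0`, `n ≥ 2`, let `w` be nonnegative weights of the vertices with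
`w i w j ≤ S = ∑ w`, let `m` be the largest weight, `m ≥ (C / η²) log n`, and let `x ≥ 0` and `φ`
satisfy `x (1 + φ) ≤ 1 - η` and `φ (1 + x) ≤ 1 - η`. If the vertices of weight more than `x m` have
total weight at most `φ S`, then the random graph with the edge probabilities `w i w j / S` is
`Good` with probability at least `1 - 1 / n`.

(3) (Power laws.) For every `s > 0` there is `C' > 0` such that for all `n ≥ 2` and all `m` with
`C' log n ≤ m ≤ ∑ i ^ (-s)` (the sum over `1 ≤ i ≤ n`), the random graph on the vertices `1, …, n`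
with the expected degrees `m i ^ (-s)` (the edge probabilities in (2) with these weights) is `Good`
with probability at least `1 - 1 / n`. -/
theorem result : ∃ C : ℝ, 0 < C ∧
    (∀ (η : ℝ), 0 < η → η ≤ 1 / 2 → ∀ n : ℕ, 2 ≤ n → ∀ q : Sym2 (Fin n) → ℝ,
      (∀ e, 0 ≤ q e ∧ q e ≤ 1) → ∀ (M β : ℝ) (W : Finset (Fin n)),
      C / η ^ 2 * Real.log n ≤ M → 0 ≤ β → 2 * β ≤ 1 - η →
      (∃ v, M ≤ expectedDegree q Finset.univ v) →
      (∀ v, v ∉ W → expectedDegree q Wᶜ v ≤ (1 - 2 * β - η) * M ∧
        expectedDegree q W v ≤ β * M) →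
      (∀ v, v ∈ W → expectedDegree q W v ≤ (1 - β - η) * M) →
      1 - 1 / n ≤ prob q (fun G => Good G)) ∧
    (∀ (η : ℝ), 0 < η → ∀ n : ℕ, 2 ≤ n → ∀ w : Fin n → ℝ, (∀ i, 0 ≤ w i) →
      (∀ i j, w i * w j ≤ ∑ k, w k) → ∀ m x φ : ℝ, (∀ i, w i ≤ m) → (∃ i, w i = m) →
      C / η ^ 2 * Real.log n ≤ m → 0 ≤ x → x * (1 + φ) ≤ 1 - η → φ * (1 + x) ≤ 1 - η →
      (∑ i ∈ Finset.univ.filter (fun i => x * m < w i), w i ≤ φ * ∑ k, w k) →
      1 - 1 / n ≤ prob (chungLu w) (fun G => Good G)) ∧
    (∀ s : ℝ, 0 < s → ∃ C' : ℝ, 0 < C' ∧ ∀ n : ℕ, 2 ≤ n → ∀ m : ℝ,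
      C' * Real.log n ≤ m → m ≤ ∑ i : Fin n, ((i : ℕ) + 1 : ℝ) ^ (-s) →
      1 - 1 / n ≤ prob (chungLu (fun i : Fin n => m * ((i : ℕ) + 1 : ℝ) ^ (-s)))
        (fun G => Good G)) := by
  obtain ⟨C, hC, hmain⟩ := Pool.Agent.U531.SR.H2.het2
  refine ⟨8 * C + 100, by positivity, ?_, ?_, ?_⟩
  · intro η hη hη1 n hn q hq M β W hM hβ0 hβ hmax hout hin
    refine good_of hn q hq _ (hmain η hη hη1 n hn q hq M β W ?_ hβ0 hβ hmax hout hin)
    refine le_trans (mul_le_mul_of_nonneg_right ?_ (Real.log_natCast_nonneg n)) hM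
    exact div_le_div_of_nonneg_right (by linarith) (by positivity)
  · intro η hη n hn w hw hww m x φ hm hm' hmK hx0 hx hφ hheavy
    exact good_of hn (chungLu w) (chungLu_mem w hw hww) _
      (Pool.Agent.U531.SR.H2.cl2 C hC hmain η hη n hn w hw hww m x φ hm hm' hmK hx0 hx hφ hheavy)
  · intro s hs
    refine ⟨16 * (8 * C + 100) + 4 * (2 : ℝ) ^ (1 / s), by positivity, ?_⟩
    intro n hn m hm1 hm2
    have hlog : 0 < Real.log (n : ℝ) := Real.log_pos (by exact_mod_cast hn)
    have hm0 : 0 < m := lt_of_lt_of_le (by positivity) hm1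
    have hi1 : ∀ i : Fin n, (1 : ℝ) ≤ ((i : ℕ) + 1 : ℝ) := by
      intro i
      have : (0 : ℝ) ≤ ((i : ℕ) : ℝ) := Nat.cast_nonneg _
      linarith
    have ha0 : ∀ i : Fin n, 0 ≤ ((i : ℕ) + 1 : ℝ) ^ (-s) := fun i =>
      Real.rpow_nonneg (by linarith [hi1 i]) _
    have hwm : ∀ i : Fin n, m * ((i : ℕ) + 1 : ℝ) ^ (-s) ≤ m := by
      intro i
      have := mul_le_mul_of_nonneg_left
        (Real.rpow_le_one_of_one_le_of_nonpos (hi1 i) (by linarith : -s ≤ 0)) hm0.le
      linarith
    have hw0 : ∀ i : Fin n, 0 ≤ m * ((i : ℕ) + 1 : ℝ) ^ (-s) := fun i =>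
      mul_nonneg hm0.le (ha0 i)
    refine good_of hn _ (chungLu_mem _ hw0 ?_) _
      (Pool.Agent.U531.SR.H2.pl C hC hmain s hs n hn m hm1 hm2)
    intro i j
    rw [← Finset.mul_sum]
    calc m * ((i : ℕ) + 1 : ℝ) ^ (-s) * (m * ((j : ℕ) + 1 : ℝ) ^ (-s)) ≤ m * m :=
          mul_le_mul (hwm i) (hwm j) (hw0 j) hm0.le
      _ ≤ m * ∑ i : Fin n, ((i : ℕ) + 1 : ℝ) ^ (-s) := mul_le_mul_of_nonneg_left hm2 hm0.le

end Pool.Agent.Results.MP_2f9829_co.HeterogeneousRandomGraphs
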