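import Pool.Agent.U380.RL.Main

set_option autoImplicit false

/-!
# The list edge-colouring conjecture is forced by the degrees of a dense random graph

For almost all graphs `G`, every graph `G'` (random or not) whose degrees are close to those of `G`
satisfies the list edge-colouring conjecture. In particular the conjecture holds for all graphs `G'`
which an adversary can obtain from `G` by adding and deleting at most `d √(n log n)` edges at every
vertex, if `d < (√2 - 1) / 4`, and for all graphs with the same degrees as `G`.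

The starting results `AlmostAllGraphs` and `RandomGraphs` are about the random graphs themselves.
The proof uses the starting theorems `Pool.Agent.H892.LEC.main` (result `SparseLargeDegrees`) and
`Pool.Agent.Y393.RS.t_few` (result `RandomGraphs`), and the method of helper25, helper497, helper503
and helper551 for the largest degrees of almost all graphs.
-/

namespace Pool.Agent.Results.MP_2f9829_co.LocalResilience

/-- Edge probabilities: `q e` is the probability that the pair `e` is an edge; all pairs are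
independent. `prob q P` is the probability that the random graph has the property `P`. -/
noncomputable def prob {n : ℕ} (q : Sym2 (Fin n) → ℝ) (P : SimpleGraph (Fin n) → Prop) : ℝ := by
  classical exact ∑ G : SimpleGraph (Fin n), if P G then
    (∏ e : {e : Sym2 (Fin n) // ¬ e.IsDiag}, if e.1 ∈ G.edgeSet then q e.1 else 1 - q e.1) else 0

/-- The expected degree of the vertex `v`. -/
noncomputable def expectedDegree {n : ℕ} (q : Sym2 (Fin n) → ℝ) (v : Fin n) : ℝ :=
  ∑ w ∈ Finset.univ.erase v, q s(v, w)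

/-- The uncertainty at the vertex `v`: the sum of `min (q, 1 - q)` over all pairs at `v`. -/
noncomputable def uncertainty {n : ℕ} (q : Sym2 (Fin n) → ℝ) (v : Fin n) : ℝ :=
  ∑ w ∈ Finset.univ.erase v, min (q s(v, w)) (1 - q s(v, w))

/-- The degree of `v` in `G`. -/
noncomputable def deg {n : ℕ} (G : SimpleGraph (Fin n)) (v : Fin n) : ℝ :=
  ((G.neighborSet v).ncard : ℝ)

/-- The edges of `G` can be properly coloured from all lists of at least `k` colours. -/
def EdgeChoosable {V : Type} (G : SimpleGraph V) (k : ℕ) : Prop :=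
  ∀ L : G.edgeSet → Finset ℕ, (∀ e, k ≤ (L e).card) →
    ∃ f : G.edgeSet → ℕ, (∀ e, f e ∈ L e) ∧ ∀ e e', G.lineGraph.Adj e e' → f e ≠ f e'

/-- The list edge-colouring conjecture holds for `G`, and both numbers in it are equal to the
maximum degree `D`. -/
def Good {V : Type} (G : SimpleGraph V) : Prop :=
  (∀ k : ℕ, G.lineGraph.Colorable k ↔ EdgeChoosable G k) ∧
    ∃ D : ℕ, (∀ v, (G.neighborSet v).ncard ≤ D) ∧ (∃ v, (G.neighborSet v).ncard = D) ∧
      EdgeChoosable G D

/-- Every graph `G'` on the vertex set of `G` with the following properties is `Good`: outside a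
set `W` of at most `s` vertices the degrees in `G'` exceed those in `G` by at most `r₁`, and the
maximum degree of `G'` is at least the maximum degree of `G` minus `r₂`. -/
def Robust {n : ℕ} (r₁ r₂ s : ℝ) (G : SimpleGraph (Fin n)) : Prop :=
  ∀ (G' : SimpleGraph (Fin n)) (W : Finset (Fin n)), (W.card : ℝ) ≤ s →
    (∀ v ∉ W, deg G' v ≤ deg G v + r₁) → (∃ u, ∀ v, deg G v ≤ deg G' u + r₂) → Good G'

/-- Every graph `G'` on the vertex set of `G` is `Good` if for every vertex `v` at most `r` vertices
`w` are adjacent to `v` in exactly one of the graphs `G` and `G'`. -/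
def Resilient {n : ℕ} (r : ℝ) (G : SimpleGraph (Fin n)) : Prop :=
  ∀ G' : SimpleGraph (Fin n), (∀ v, ({w | ¬ (G.Adj v w ↔ G'.Adj v w)}.ncard : ℝ) ≤ r) → Good G'

/-- (1) Let `d₁, d₂ ≥ 0` and `d₁ + d₂ < (√2 - 1) / 2`. There is `s > 0` such that the proportion of
the graphs on `n` vertices which are not `Robust` with the parameters `d₁ √(n log n)`,
`d₂ √(n log n)`, `s √(n log n)` tends to `0`.

(2) Let `0 ≤ d < (√2 - 1) / 4`. The proportion of the graphs on `n` vertices which are not
`Resilient` with the parameter `d √(n log n)` tends to `0`.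

(3) For every `c > 0` there is `η > 0` such that for every `ε > 0` and all large `n`: for every
random graph on `n` vertices with independent edges in which every vertex has uncertainty at least
`c n`, or expected degree at least `c n` below the largest one, the probability that it is `Robust`
with the parameters `η √(n log n)` is at least `1 - ε`.

(4) For every `c > 0` there is `η > 0` such that for every `ε > 0` and all large `n`: if `F ≤ B` are
graphs on `n` vertices such that every vertex `v` satisfies `deg B v - deg F v ≥ c n`, or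
`deg F v + deg B v ≤ max (deg F + deg B) - c n`, then all but an `ε`-fraction of the graphs `G` with
`F ≤ G ≤ B` are `Robust` with the parameters `η √(n log n)`.

(5) If `n > 0`, `s ≥ 0` and `G` is `Robust` with the parameters `r`, `r`, `s`, then `G` is
`Resilient` with the parameter `r`. -/
theorem result :
    (∀ d₁ d₂ : ℝ, 0 ≤ d₁ → 0 ≤ d₂ → d₁ + d₂ < (Real.sqrt 2 - 1) / 2 → ∃ s : ℝ, 0 < s ∧
      ∀ ε : ℝ, 0 < ε → ∃ N : ℕ, ∀ n : ℕ, N ≤ n →
        ({G : SimpleGraph (Fin n) | ¬ Robust (d₁ * Real.sqrt (n * Real.log n))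
          (d₂ * Real.sqrt (n * Real.log n)) (s * Real.sqrt (n * Real.log n)) G}.ncard : ℝ) ≤
        ε * Nat.card (SimpleGraph (Fin n))) ∧
    (∀ d : ℝ, 0 ≤ d → d < (Real.sqrt 2 - 1) / 4 →
      ∀ ε : ℝ, 0 < ε → ∃ N : ℕ, ∀ n : ℕ, N ≤ n →
        ({G : SimpleGraph (Fin n) | ¬ Resilient (d * Real.sqrt (n * Real.log n)) G}.ncard : ℝ) ≤
        ε * Nat.card (SimpleGraph (Fin n))) ∧
    (∀ c : ℝ, 0 < c → ∃ η : ℝ, 0 < η ∧ ∀ ε : ℝ, 0 < ε → ∃ N : ℕ, ∀ n : ℕ, N ≤ n →
      ∀ q : Sym2 (Fin n) → ℝ, (∀ e, 0 ≤ q e ∧ q e ≤ 1) →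
      (∀ v, c * n ≤ uncertainty q v ∨
        ∃ u, expectedDegree q v + c * n ≤ expectedDegree q u) →
      1 - ε ≤ prob q (fun G => Robust (η * Real.sqrt (n * Real.log n))
        (η * Real.sqrt (n * Real.log n)) (η * Real.sqrt (n * Real.log n)) G)) ∧
    (∀ c : ℝ, 0 < c → ∃ η : ℝ, 0 < η ∧ ∀ ε : ℝ, 0 < ε → ∃ N : ℕ, ∀ n : ℕ, N ≤ n →
      ∀ F B : SimpleGraph (Fin n), F ≤ B →
      (∀ v, deg F v + c * n ≤ deg B v ∨ ∃ u, deg F v + deg B v + c * n ≤ deg F u + deg B u) →
      ({G : SimpleGraph (Fin n) | F ≤ G ∧ G ≤ B ∧ ¬ Robust (η * Real.sqrt (n * Real.log n))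
        (η * Real.sqrt (n * Real.log n)) (η * Real.sqrt (n * Real.log n)) G}.ncard : ℝ) ≤
        ε * {G : SimpleGraph (Fin n) | F ≤ G ∧ G ≤ B}.ncard) ∧
    (∀ n : ℕ, 0 < n → ∀ r s : ℝ, 0 ≤ s → ∀ G : SimpleGraph (Fin n),
      Robust r r s G → Resilient r G) := by
  have h5 : ∀ n : ℕ, 0 < n → ∀ r s : ℝ, 0 ≤ s → ∀ G : SimpleGraph (Fin n),
      Robust r r s G → Resilient r G :=
    fun n hn r s hs G h => Pool.Agent.U380.RL.resilient_of hn hs h
  refine ⟨fun d₁ d₂ h₁ h₂ hd => Pool.Agent.U380.RL.robust_half h₁ h₂ hd, ?_, ?_, ?_, h5⟩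
  · intro d hd0 hd ε hε
    obtain ⟨s, hs, h⟩ := Pool.Agent.U380.RL.robust_half hd0 hd0 (by linarith)
    obtain ⟨N, hN⟩ := h ε hε
    refine ⟨max N 1, fun n hn => le_trans ?_ (hN n ((le_max_left _ _).trans hn))⟩
    have hn1 : 0 < n := lt_of_lt_of_le one_pos ((le_max_right _ _).trans hn)
    refine Nat.cast_le.2 (Set.ncard_le_ncard (fun G hG => ?_) (Set.toFinite _))
    intro hcon
    exact hG (h5 n hn1 _ _ (mul_nonneg hs.le (Real.sqrt_nonneg _)) G hcon)
  · intro c hc
    obtain ⟨η, hη, h⟩ := Pool.Agent.U380.RL.robust_q hc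
    exact ⟨η, hη, fun ε hε => (h ε hε).imp fun _ h n hn q h1 h2 => h n hn q ⟨h1, h2⟩⟩
  · intro c hc
    exact Pool.Agent.U380.RL.robust_int hc

end Pool.Agent.Results.MP_2f9829_co.LocalResilience
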