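import Pool.Agent.U531.SR.Lecc

set_option autoImplicit false

/-!
# The list edge-colouring conjecture for sparse random graphs

Let `κ` be a real number with `κ (3/2 log (3/2) - 1/2) < 1`; every `κ ≤ 9.24` will do. Asymptotically
almost surely, uniformly in `p ≤ κ log n / n`, the random graph `G(n, p)` satisfies the list
edge-colouring conjecture, and its edges can be coloured from all lists of `Δ` colours. The range of
`p` contains the thresholds for a giant component, for connectedness and for Hamilton cycles.

The starting result `RandomGraphs` is on dense random graphs (expected degrees of order `n`). For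
the sparse random graphs the library has the following deterministic fact (with the theorem of
Borodin, Kostochka and Woodall on lists of `⌊3 Δ / 2⌋` colours): if every vertex of `G` has at most
`b` neighbours of degree more than `k`, where `3 k + 4 b ≤ 2 Δ + 1` and `2 b ≤ Δ`, then `G` is
edge-colourable from all lists of `Δ` colours. The main part of the proof is the theorem
`Pool.Agent.U531.SR.structure_thm` on random graphs: if `0 < λ < 1` and `κ φ(1 / λ) < 1`, where
`φ(x) = x log x - x + 1`, then there is `b` such that a.a.s., uniformly for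
`1 / log n ≤ n p ≤ κ log n`, every vertex has at most `b` neighbours of degree more than
`λ Δ - C`. For `n p < 1 / log n` the random graph is a.a.s. a forest.
-/

namespace Pool.Agent.Results.MP_2f9829_co.SparseRandomGraphs

/-- `prob p P` is the probability that the random graph `G(n, p)` has the property `P`: every pair
of different vertices is an edge with probability `p`, independently. -/
noncomputable def prob {n : ℕ} (p : ℝ) (P : SimpleGraph (Fin n) → Prop) : ℝ := by
  classical exact ∑ G : SimpleGraph (Fin n), if P G then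
    (∏ e : {e : Sym2 (Fin n) // ¬ e.IsDiag}, if e.1 ∈ G.edgeSet then p else 1 - p) else 0

/-- The edges of `G` can be properly coloured from all lists of at least `k` colours. -/
def EdgeChoosable {V : Type} (G : SimpleGraph V) (k : ℕ) : Prop :=
  ∀ L : G.edgeSet → Finset ℕ, (∀ e, k ≤ (L e).card) →
    ∃ f : G.edgeSet → ℕ, (∀ e, f e ∈ L e) ∧ ∀ e e', G.lineGraph.Adj e e' → f e ≠ f e'

/-- The list edge-colouring conjecture for the graph `G`: for every `k`, the edges can be properly
coloured with `k` colours if and only if they can be properly coloured from all lists of at least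
`k` colours. -/
def ListEdge {V : Type} (G : SimpleGraph V) : Prop :=
  ∀ k : ℕ, G.lineGraph.Colorable k ↔ EdgeChoosable G k

/-- The number of neighbours of `v`. -/
noncomputable def deg {V : Type} (G : SimpleGraph V) (v : V) : ℕ := (G.neighborSet v).ncard

theorem numeric : (9.24 : ℝ) * (3 / 2 * Real.log (3 / 2) - 1 / 2) < 1 := by
  have h : Real.log (3 / 2) < 0.40548 := by
    rw [Real.log_lt_iff_lt_exp (by norm_num)]
    refine lt_of_lt_of_le ?_ (Real.sum_le_exp_of_nonneg (x := 0.40548) (by norm_num) 7)
    norm_num [Finset.sum_range_succ, Nat.factorial]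
  linarith

/-- (1) Let `κ (3/2 log (3/2) - 1/2) < 1` and `ε > 0`. For all large `n` and all `p` with
`n p ≤ κ log n`, the random graph `G(n, p)` has the following property with probability at least
`1 - ε`: the list edge-colouring conjecture holds for `G`, and for the maximum degree `D` of `G`
the edges of `G` can be coloured from all lists of `D` colours.

(2) `κ = 9.24` satisfies the condition. -/
theorem result :
    (∀ κ ε : ℝ, κ * (3 / 2 * Real.log (3 / 2) - 1 / 2) < 1 → 0 < ε →
      ∃ n₀ : ℕ, ∀ n : ℕ, n₀ ≤ n → ∀ p : ℝ, 0 ≤ p → p ≤ 1 → (n : ℝ) * p ≤ κ * Real.log n →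
        1 - ε ≤ prob p (fun G : SimpleGraph (Fin n) => ListEdge G ∧
          ∃ D : ℕ, (∀ v, deg G v ≤ D) ∧ (∃ v, deg G v = D) ∧ EdgeChoosable G D)) ∧
    (9.24 : ℝ) * (3 / 2 * Real.log (3 / 2) - 1 / 2) < 1 := by
  refine ⟨fun κ ε hκ hε => ?_, numeric⟩
  have hκ' : κ * Pool.Agent.U531.SR.Ph 1 (1 / (2 / 3)) < 1 := by
    unfold Pool.Agent.U531.SR.Ph
    norm_num
    norm_num at hκ
    linarith
  obtain ⟨n₀, h⟩ := Filter.eventually_atTop.1 (Pool.Agent.U531.SR.lecc_prob κ ε hκ' hε)
  refine ⟨max n₀ 1, fun n hn p hp0 hp1 hp => ?_⟩
  have h1 := h n ((le_max_left _ _).trans hn) p hp0 hp1 hp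
  have hn0 : 0 < n := (le_max_right n₀ 1).trans hn
  change 1 - ε ≤ Pool.Agent.U531.SR.probG p _
  rw [Pool.Agent.U531.SR.probG_eq]
  refine h1.trans (Pool.Agent.U531.SR.PR_mono hp0 hp1 (fun χ hχ => ?_))
  obtain ⟨D, hD⟩ := Pool.Agent.U531.SR.exists_isMax hn0 (Pool.Agent.U531.SR.gr χ)
  obtain ⟨v, hv⟩ := hD.2
  have hc := hχ D hD
  exact ⟨fun k => Pool.Agent.TH559.LE.lecc _ D hc v hv k, D, hD.1, ⟨v, hv⟩, hc⟩

end Pool.Agent.Results.MP_2f9829_co.SparseRandomGraphs
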